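import Pool.Agent.Y217.HK.Inst

/-! Project HK, job HK-12: the selector. -/

set_option autoImplicit false

namespace Pool.Agent.Y664.HK

open MeasureTheory Filter Topology Set TopologicalSpace
open Pool.Agent.Y217.HK

/-- `σ` is an initial segment of `y` -/
def Ini (σ : List ℕ) (y : ℕ → ℕ) : Prop := (List.ofFn fun i : Fin σ.length => y i) = σ

lemma ini_iff (σ : List ℕ) (y : ℕ → ℕ) :
    Ini σ y ↔ ∀ (i : ℕ) (h : i < σ.length), y i = σ[i] := by
  unfold Ini
  constructor
  · intro h i hi
    have h1 : (List.ofFn fun i : Fin σ.length => y i)[i]'(by simpa using hi) = σ[i] := by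
      congr 1
    simpa using h1
  · intro h
    apply List.ext_getElem
    · simp
    · intro i h1 h2
      simpa using h i h2

lemma ini_nil (y : ℕ → ℕ) : Ini [] y := by simp [Ini]

lemma ini_append (σ : List ℕ) (y : ℕ → ℕ) (h : Ini σ y) : Ini (σ ++ [y σ.length]) y := by
  rw [ini_iff] at h ⊢
  intro i hi
  by_cases h1 : i < σ.length
  · rw [List.getElem_append_left h1]
    exact h i h1
  · have h2 : i = σ.length := by
      simp only [List.length_append, List.length_singleton] at hi
      omega
    subst h2
    simp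

lemma ini_ofFn (y y' : ℕ → ℕ) (n : ℕ) (h : Ini (List.ofFn fun i : Fin n => y i) y') :
    ∀ i, i < n → y' i = y i := by
  rw [ini_iff] at h
  intro i hi
  have := h i (by simpa using hi)
  simpa using this

lemma neBot_residual (X : Type) [TopologicalSpace X] [BaireSpace X] [Nonempty X] :
    NeBot (residual X) := by
  rw [Filter.neBot_iff]
  intro h
  have h1 : (∅ : Set X) ∈ residual X := by rw [h]; trivial
  have h2 := dense_of_mem_residual h1
  obtain ⟨x, hx⟩ := h2.nonempty
  exact hx

lemma ev_mul {G : Type} [TopologicalSpace G] [Group G] [IsTopologicalGroup G] (h : G)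
    (P : G → Prop) : (∀ᶠ g in residual G, P (g * h)) ↔ ∀ᶠ g in residual G, P g := by
  have h1 := (Homeomorph.mulRight h).residual_map_eq
  conv_rhs => rw [← h1]
  rfl

/-- the selector -/
theorem selA (hC : JCatQ) (hB : JBranch) : JSelA := by
  intro C hCc W _ _ _ _ _ G _ _ _ _ Y _ _ _ _ _ _ f p hf hp h1 h2 h3
  let _ : MeasurableSpace G := borel G
  have : BorelSpace G := ⟨rfl⟩
  have : NeBot (residual W) := neBot_residual W
  have : NeBot (residual G) := neBot_residual G
  let q : (C × W) × G → C := fun x => p (x.2 • f x.1)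
  have hq : Measurable q := by
    refine hp.comp ?_
    have h4 : Measurable fun x : G × Y => x.1 • x.2 := continuous_smul.measurable
    exact h4.comp (measurable_snd.prodMk (hf.comp measurable_fst))
  let S : List ℕ → Set ((C × W) × G) := fun σ =>
    {x | (q x).1.1 = x.1.1.1.1 ∧ Ini σ (q x).1.2}
  have hS : ∀ σ, MeasurableSet (S σ) := by
    intro σ
    refine MeasurableSet.inter ?_ ?_
    · have h4 : MeasurableSet {z : (ℕ → Bool) × (ℕ → Bool) | z.1 = z.2} :=
        (isClosed_eq continuous_fst continuous_snd).measurableSet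
      have h5 : Measurable fun x : (C × W) × G => ((q x).1.1, x.1.1.1.1) :=
        (measurable_fst.comp (measurable_subtype_coe.comp hq)).prodMk
          (measurable_fst.comp (measurable_subtype_coe.comp (measurable_fst.comp measurable_fst)))
      exact h5 h4
    · have h4 : MeasurableSet {v : Fin σ.length → ℕ | List.ofFn v = σ} :=
        (Set.to_countable _).measurableSet
      have h5 : Measurable fun y : ℕ → ℕ => fun i : Fin σ.length => y i :=
        measurable_pi_lambda _ fun i => measurable_pi_apply _
      have h6 : Measurable fun x : (C × W) × G => (q x).1.2 :=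
        measurable_snd.comp (measurable_subtype_coe.comp hq)
      exact (h5.comp h6) h4
  let T : C → Set (List ℕ) := fun c =>
    {σ | ¬ ∀ᶠ z in residual W, ∀ᶠ g in residual G, ((c, z), g) ∉ S σ}
  have hT : ∀ σ : List ℕ, MeasurableSet {c | σ ∈ T c} := by
    intro σ
    have h4 := hC (C × W) G (S σ)ᶜ (hS σ).compl
    have h5 := hC C W _ h4
    exact h5.compl
  -- basic facts on `q`
  have hq1 : ∀ (c : C) (z : W) (g : G), (q ((c, z), g)).1.1 = (p (f (c, z))).1.1 := fun c z g =>
    h2 g (f (c, z))
  have hnil : ∀ c, [] ∈ T c := by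
    intro c hc
    obtain ⟨z, hz1, hz2⟩ := (hc.and (h3 c)).exists
    obtain ⟨g, hg⟩ := hz1.exists
    exact hg ⟨(hq1 c z g).trans hz2, ini_nil _⟩
  have hprune : ∀ c, ∀ σ ∈ T c, ∃ n : ℕ, σ ++ [n] ∈ T c := by
    intro c σ hσ
    by_contra hcon
    push Not at hcon
    have h4 : ∀ n : ℕ, ∀ᶠ z in residual W, ∀ᶠ g in residual G, ((c, z), g) ∉ S (σ ++ [n]) := by
      intro n
      have h5 := hcon n
      simp only [T, Set.mem_ofPred_eq, not_not] at h5
      exact h5
    refine hσ ?_
    filter_upwards [eventually_countable_forall.2 h4] with z hz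
    filter_upwards [eventually_countable_forall.2 hz] with g hg
    intro hmem
    exact hg _ ⟨hmem.1, ini_append σ _ hmem.2⟩
  obtain ⟨y, hy1, hy2, hy3⟩ := hB C T hT hnil hprune
  have hTeq : ∀ c c' : C, c.1.1 = c'.1.1 → T c = T c' := by
    intro c c' hcc
    ext σ
    have h4 : (∀ᶠ z in residual W, ∀ᶠ g in residual G, ((c, z), g) ∉ S σ) ↔
        ∀ᶠ z in residual W, ∀ᶠ g in residual G, ((c', z), g) ∉ S σ := by
      refine eventually_congr (Eventually.of_forall fun z => ?_)
      obtain ⟨h, hh⟩ := h1 c c' z hcc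
      rw [← ev_mul h]
      refine eventually_congr (Eventually.of_forall fun g => ?_)
      have h5 : q ((c', z), g) = q ((c, z), g * h) := by
        simp only [q]
        rw [hh, mul_smul]
      simp only [S, Set.mem_ofPred_eq]
      rw [h5, hcc]
    exact not_congr h4
  have hmem : ∀ c : C, (c.1.1, y c) ∈ C := by
    intro c
    have h4 : ∀ n : ℕ, ∃ x : C, x.1.1 = c.1.1 ∧ ∀ i, i < n → x.1.2 i = y c i := by
      intro n
      have h5 := hy2 c n
      have h6 : ∃ z g, ((c, z), g) ∈ S (List.ofFn fun i : Fin n => y c i) := by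
        by_contra hcon
        push Not at hcon
        exact h5 (Eventually.of_forall fun z => Eventually.of_forall fun g => hcon z g)
      obtain ⟨z, g, hzg⟩ := h6
      exact ⟨q ((c, z), g), hzg.1, ini_ofFn _ _ n hzg.2⟩
    choose x hx1 hx2 using h4
    refine hCc.mem_of_tendsto (b := atTop) (f := fun n => (x n).1) ?_
      (Eventually.of_forall fun n => (x n).2)
    refine Tendsto.prodMk_nhds (tendsto_const_nhds.congr fun n => (hx1 n).symm) ?_
    rw [tendsto_pi_nhds]
    intro i
    refine tendsto_const_nhds.congr' ?_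
    filter_upwards [eventually_gt_atTop i] with n hn
    exact (hx2 n i hn).symm
  refine ⟨fun c => ⟨(c.1.1, y c), hmem c⟩, ?_, ?_, fun c => rfl⟩
  · exact ((measurable_fst.comp measurable_subtype_coe).prodMk hy1).subtype_mk
  · intro c c' hcc
    apply Subtype.ext
    simp only [Prod.mk.injEq]
    exact ⟨hcc, hy3 c c' (hTeq c c' hcc)⟩

end Pool.Agent.Y664.HK
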